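import Pool.Agent.V11192.Ghys.Main

/-!
# A leafwise complex cycle which is locally not a superposition of pseudoholomorphic curves

Negative answer to Q1, for `M = ℂ²`, the foliation with the single leaf `M` and `J v = i v`. The
definitions `Form`, `Current`, `dirac`, `dForm`, `IsCycle`, `extZero`, `closedCone`, `IsCCurrent`,
`chartDeriv`, `pullCoeff`, `IsCurve`, `IsPartition`, `IsIntegration`, `curves`, `curveVal`,
`IsSuperposition`, `IsCounterexample` are in `Pool/Agent/V11192/Ghys/Stmt.lean`.

The cycle is the tropical current `dd^c max(0, Re z, Re w)` (up to a constant): the sum of the
integration currents over the half-planes `{(iτ, w) : Re w < 0}`, `{(z, iτ) : Re z < 0}` and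
`{(ζ, ζ + iτ) : Re ζ > 0}`, integrated over `τ ∈ ℝ`; the boundaries, supported in `iℝ²`, cancel.
If it were a superposition of curves in a neighbourhood of the origin, almost every curve would be
contained in the support of the current. On a connected Riemann surface this forces one of the
functions `z`, `w`, `z - w` to be constant with real part zero. By properness and the open mapping
theorem the curve then fills a component of the intersection of a complex line with `U`, which
leaves the support if it comes close to the origin. So almost no curve comes close to the origin,
but the current does not vanish there.
-/

namespace Pool.Agent.Results.MP_03adb9_gt.NotSuperposition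

open TopologicalSpace
open Pool.Agent.V11192.Ghys.Stmt

/-- There is a `C`-cycle `c` on `ℂ²` (for the foliation with one leaf and the standard complex
structure) such that on no open neighbourhood `U` of the origin `c` is the superposition
`∫ c' dν(c')` of pseudoholomorphic curves in `U` for a non-negative measure `ν`. -/
theorem result : ∃ c : Current (⊤ : Opens (ℂ × ℂ)), IsCounterexample c 0 :=
  ⟨Pool.Agent.V11192.Ghys.cur, Pool.Agent.V11192.Ghys.cur_isCCurrent,
    Pool.Agent.V11192.Ghys.cur_isCycle, Pool.Agent.V11192.Ghys.not_superposition⟩

end Pool.Agent.Results.MP_03adb9_gt.NotSuperposition
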